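import Pool.Agent.Helper69.SHT.St

/-! SHT module ALN: growth of `α₀`. -/

set_option autoImplicit false

namespace Pool.Agent.Helper25.SHT

open Finset Filter Pool.Agent.Helper82.CN Pool.Agent.Helper11.PV Pool.Agent.Helper69.VX Pool.Agent.Helper69.UX Pool.Agent.Helper69.SHT

theorem hALN : StALN := by
  intro p x y hp0 hp1 hx hxy
  have hL : 0 < bb p := by
    unfold bb
    apply Real.log_pos
    rw [lt_div_iff₀ (by linarith)]
    linarith
  have hx0 : 0 < x := by linarith
  have hy0 : 0 < y := by linarith
  have hu1 : 1 ≤ Real.log x := by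
    rw [Real.le_log_iff_exp_le hx0]
    have := Real.exp_one_lt_d9
    linarith
  have huv : Real.log x ≤ Real.log y := Real.log_le_log hx0 hxy
  have hu0 : 0 < Real.log x := by linarith
  have hv0 : 0 < Real.log y := by linarith
  have hE : a0 p y - a0 p x = 2 / bb p * ((Real.log y - Real.log x) -
      (Real.log (Real.log y) - Real.log (Real.log x))) := by
    show Pool.Agent.Helper82.CN.al p y - Pool.Agent.Helper82.CN.al p x = _
    unfold Pool.Agent.Helper82.CN.al
    rw [Real.log_div hv0.ne' hL.ne', Real.log_div hu0.ne' hL.ne']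
    field_simp
    ring
  have h1 : Real.log (Real.log x) ≤ Real.log (Real.log y) := Real.log_le_log hu0 huv
  have h2 : Real.log (Real.log y) - Real.log (Real.log x) ≤ Real.log y - Real.log x := by
    rw [← Real.log_div hv0.ne' hu0.ne']
    have h3 := Real.log_le_sub_one_of_pos (div_pos hv0 hu0)
    have h4 : Real.log y / Real.log x - 1 ≤ Real.log y - Real.log x := by
      rw [div_sub_one hu0.ne', div_le_iff₀ hu0]
      nlinarith
    linarith
  have h5 : Real.log y - Real.log x ≤ (y - x) / x := by
    rw [← Real.log_div hy0.ne' hx0.ne', sub_div, div_self hx0.ne']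
    exact Real.log_le_sub_one_of_pos (div_pos hy0 hx0)
  have hc : 0 < 2 / bb p := by positivity
  constructor
  · have : 0 ≤ a0 p y - a0 p x := by
      rw [hE]
      exact mul_nonneg hc.le (by linarith)
    linarith
  · rw [hE]
    exact mul_le_mul_of_nonneg_left (by linarith) hc.le

end Pool.Agent.Helper25.SHT
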